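import Pool.Agent.helper97.GD.Spec

/-!
# Project GD (MP_37e5fa_nt), row GLV: the levels
-/

set_option autoImplicit false

open Filter FirstOrder FirstOrder.Language

namespace Pool.Agent.GD

open Pool.Agent.UnivT

/-- what we use of GSM -/
structure GLV_H (U : Ultrafilter ℕ) (N : ℕ → ℕ) : Prop where
  co : ∀ c : ℤ, Sm U N fun _ => c
  op : ∀ f g, Sm U N f → Sm U N g → Sm U N (fun k => f k + g k) ∧ Sm U N (fun k => f k - g k) ∧
    Sm U N (fun k => f k * g k)
  dm : ∀ (f g : ℕ → ℤ) (C : ℕ), Sm U N f → (∀ᶠ k in (U : Filter ℕ), |g k| ≤ C * (|f k| + 1)) → Sm U N g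

variable {U : Ultrafilter ℕ} {N : ℕ → ℕ}

theorem GLV_up (H : GLV_H U N) (n : ℕ) : ∀ f, Lv U N n f → Lv U N (n + 1) f := by
  induction n with
  | zero =>
    intro f hf
    refine ⟨1, [(f, fun _ => 0)], one_pos, ?_, ?_⟩
    · intro x hx
      rw [List.mem_singleton] at hx
      subst hx
      exact ⟨hf, H.co 0⟩
    · refine Eventually.of_forall fun k => ?_
      rw [sv_cons, sv_nil]
      simp
  | succ n ih =>
    rintro f ⟨D, l, hD, hl, hf⟩
    exact ⟨D, l, hD, fun x hx => ⟨(hl x hx).1, ih _ (hl x hx).2⟩, hf⟩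

theorem GLV_sm (H : GLV_H U N) (n : ℕ) : ∀ f, Sm U N f → Lv U N n f := by
  induction n with
  | zero => exact fun f hf => hf
  | succ n ih => exact fun f hf => GLV_up H n f (ih f hf)

theorem GLV_congr (n : ℕ) (f g : ℕ → ℤ) (hf : Lv U N n f)
    (h : ∀ᶠ k in (U : Filter ℕ), f k = g k) : Lv U N n g := by
  cases n with
  | zero =>
    intro j
    filter_upwards [hf j, h] with k h1 h2
    rw [← h2]
    exact h1
  | succ n =>
    obtain ⟨D, l, hD, hl, hf⟩ := hf
    refine ⟨D, l, hD, hl, ?_⟩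
    filter_upwards [hf, h] with k h1 h2
    rw [← h2]
    exact h1

theorem GLV_dvd (H : GLV_H U N) (n D : ℕ) (f : ℕ → ℤ) (hD : 0 < D)
    (hf : Lv U N n (fun k => (D : ℤ) * f k)) : Lv U N n f := by
  cases n with
  | zero =>
    refine H.dm _ f 1 hf (Eventually.of_forall fun k => ?_)
    have h1 : (1 : ℤ) ≤ |(D : ℤ)| := by
      rw [Nat.abs_cast]
      exact_mod_cast hD
    have h2 : |f k| ≤ |(D : ℤ) * f k| := by
      rw [abs_mul]
      exact le_mul_of_one_le_left (abs_nonneg _) h1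
    push_cast
    linarith
  | succ n =>
    obtain ⟨D', l, hD', hl, hf⟩ := hf
    refine ⟨D' * D, l, Nat.mul_pos hD' hD, hl, ?_⟩
    filter_upwards [hf] with k h1
    rw [← h1]
    push_cast
    ring

theorem GLV_toNat (H : GLV_H U N) (n : ℕ) (e : ℕ → ℤ) (he : Lv U N n e) :
    Lv U N n (fun k => ((e k).toNat : ℤ)) := by
  rcases (U : Ultrafilter ℕ).em (fun k => 0 ≤ e k) with h | h
  · refine GLV_congr n e _ he ?_
    filter_upwards [h] with k hk
    exact (Int.toNat_of_nonneg hk).symm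
  · refine GLV_congr n (fun _ => 0) _ (GLV_sm H n _ (H.co 0)) ?_
    filter_upwards [h] with k hk
    have : (e k).toNat = 0 := Int.toNat_of_nonpos (by omega)
    rw [this]
    rfl

theorem GLV_scale (c : ℤ) (l : List ((ℕ → ℤ) × (ℕ → ℤ))) (k : ℕ) :
    sv (l.map fun x => (fun k => c * x.1 k, x.2)) k = c * sv l k := by
  induction l with
  | nil => rw [List.map_nil, sv_nil, mul_zero]
  | cons x l ih =>
    rw [List.map_cons, sv_cons, sv_cons, ih]
    ring

/-- the product of a term and a list -/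
def GLV_mul (x : (ℕ → ℤ) × (ℕ → ℤ)) (l : List ((ℕ → ℤ) × (ℕ → ℤ))) : List ((ℕ → ℤ) × (ℕ → ℤ)) :=
  l.map fun y => (fun k => x.1 k * y.1 k, fun k => ((x.2 k).toNat : ℤ) + ((y.2 k).toNat : ℤ))

theorem GLV_mul_sv (x : (ℕ → ℤ) × (ℕ → ℤ)) (l : List ((ℕ → ℤ) × (ℕ → ℤ))) (k : ℕ) :
    sv (GLV_mul x l) k = x.1 k * 2 ^ (x.2 k).toNat * sv l k := by
  induction l with
  | nil => show sv [] k = _; rw [sv_nil, mul_zero]
  | cons y l ih =>
    have h1 : GLV_mul x (y :: l) = (fun k => x.1 k * y.1 k,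
      fun k => ((x.2 k).toNat : ℤ) + ((y.2 k).toNat : ℤ)) :: GLV_mul x l := rfl
    rw [h1, sv_cons, sv_cons, ih]
    have h2 : (((x.2 k).toNat : ℤ) + ((y.2 k).toNat : ℤ)).toNat = (x.2 k).toNat + (y.2 k).toNat := by
      omega
    show x.1 k * y.1 k * 2 ^ (((x.2 k).toNat : ℤ) + ((y.2 k).toNat : ℤ)).toNat + _ = _
    rw [h2, pow_add]
    ring

theorem GLV_flat_sv (l l' : List ((ℕ → ℤ) × (ℕ → ℤ))) (k : ℕ) :
    sv (l.flatMap fun x => GLV_mul x l') k = sv l k * sv l' k := by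
  induction l with
  | nil => rw [List.flatMap_nil, sv_nil, zero_mul]
  | cons x l ih =>
    rw [List.flatMap_cons, sv_append, ih, GLV_mul_sv, sv_cons]
    ring

theorem GLV_alg (H : GLV_H U N) (n : ℕ) : ∀ f g, Lv U N n f → Lv U N n g →
    Lv U N n (fun k => f k + g k) ∧ Lv U N n (fun k => f k - g k) ∧ Lv U N n (fun k => f k * g k) := by
  induction n with
  | zero => exact fun f g hf hg => H.op f g hf hg
  | succ n ih =>
    rintro f g ⟨D, l, hD, hl, hf⟩ ⟨D', l', hD', hl', hg⟩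
    have hsc : ∀ (c : ℤ) (l : List ((ℕ → ℤ) × (ℕ → ℤ))), (∀ x ∈ l, Sm U N x.1 ∧ Lv U N n x.2) →
        ∀ x ∈ l.map (fun x => ((fun k => c * x.1 k : ℕ → ℤ), x.2)), Sm U N x.1 ∧ Lv U N n x.2 := by
      intro c l hl x hx
      rw [List.mem_map] at hx
      obtain ⟨y, hy, rfl⟩ := hx
      exact ⟨(H.op _ _ (H.co c) (hl y hy).1).2.2, (hl y hy).2⟩
    refine ⟨⟨D * D', l.map (fun x => (fun k => (D' : ℤ) * x.1 k, x.2)) ++
        l'.map (fun x => (fun k => (D : ℤ) * x.1 k, x.2)), Nat.mul_pos hD hD', ?_, ?_⟩,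
      ⟨D * D', l.map (fun x => (fun k => (D' : ℤ) * x.1 k, x.2)) ++
        l'.map (fun x => (fun k => (-D : ℤ) * x.1 k, x.2)), Nat.mul_pos hD hD', ?_, ?_⟩,
      ⟨D * D', l.flatMap fun x => GLV_mul x l', Nat.mul_pos hD hD', ?_, ?_⟩⟩
    · intro x hx
      rcases List.mem_append.1 hx with h | h
      · exact hsc _ l hl x h
      · exact hsc _ l' hl' x h
    · filter_upwards [hf, hg] with k h1 h2
      rw [sv_append, GLV_scale, GLV_scale, ← h1, ← h2]
      push_cast
      ring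
    · intro x hx
      rcases List.mem_append.1 hx with h | h
      · exact hsc _ l hl x h
      · exact hsc _ l' hl' x h
    · filter_upwards [hf, hg] with k h1 h2
      rw [sv_append, GLV_scale, GLV_scale, ← h1, ← h2]
      push_cast
      ring
    · intro z hz
      rw [List.mem_flatMap] at hz
      obtain ⟨x, hx, hz⟩ := hz
      unfold GLV_mul at hz
      rw [List.mem_map] at hz
      obtain ⟨y, hy, rfl⟩ := hz
      exact ⟨(H.op _ _ (hl x hx).1 (hl' y hy).1).2.2,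
        (ih _ _ (GLV_toNat H n _ (hl x hx).2) (GLV_toNat H n _ (hl' y hy).2)).1⟩
    · filter_upwards [hf, hg] with k h1 h2
      rw [GLV_flat_sv, ← h1, ← h2]
      push_cast
      ring

theorem GLV_div (H : GLV_H U N) (n c : ℕ) (f : ℕ → ℤ) (hf : Lv U N n f) :
    Lv U N n (fun k => f k / (c : ℤ)) := by
  rcases Nat.eq_zero_or_pos c with h0 | hc
  · subst h0
    refine GLV_congr n (fun _ => 0) _ (GLV_sm H n _ (H.co 0)) (Eventually.of_forall fun k => ?_)
    simp
  · have hc' : (0 : ℤ) < c := by exact_mod_cast hc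
    have h1 : ∀ᶠ k in (U : Filter ℕ), ∃ r ∈ (Set.Ico (0 : ℤ) c), f k % c = r :=
      Eventually.of_forall fun k => ⟨f k % c, ⟨Int.emod_nonneg _ hc'.ne', Int.emod_lt_of_pos _ hc'⟩, rfl⟩
    rw [Ultrafilter.eventually_exists_mem_iff (Set.finite_Ico _ _)] at h1
    obtain ⟨r, _, hr⟩ := h1
    apply GLV_dvd H n c _ hc
    refine GLV_congr n (fun k => f k - r) _ ((GLV_alg H n f (fun _ => r) hf
      (GLV_sm H n _ (H.co r))).2.1) ?_
    filter_upwards [hr] with k hk
    have := Int.mul_ediv_add_emod (f k) c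
    rw [hk] at this
    linarith

/-- **GLV**. -/
theorem GLV (hGSM : GSM_stmt) : GLV_stmt := by
  intro U N hN n
  obtain ⟨h1, h2, h3, -, -, -⟩ := hGSM U N hN
  have H : GLV_H U N := ⟨h1, h2, h3⟩
  refine ⟨fun f g hf h => GLV_congr n f g hf h, GLV_sm H n, GLV_up H n, GLV_alg H n,
    fun D f hD hf => GLV_dvd H n D f hD hf, fun c f hf => GLV_div H n c f hf, fun f hf => ?_⟩
  refine ⟨1, [(fun _ => 1, f)], one_pos, ?_, ?_⟩
  · intro x hx
    rw [List.mem_singleton] at hx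
    subst hx
    exact ⟨H.co 1, hf⟩
  · refine Eventually.of_forall fun k => ?_
    rw [sv_cons, sv_nil]
    simp

end Pool.Agent.GD
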