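import Pool.Agent.helper65.GD.Spec

/-!
# Project gd, row KEY: the bounds for finite measures
-/

set_option autoImplicit false
set_option linter.unusedVariables false

namespace Pool.Agent.GD

open Finset Metric Filter Topology

theorem KEY_norm {a b : ℂ} {t r q : ℝ} (ht : 0 < t) (h : (t : ℂ) * a = b) (hb : ‖b‖ ≤ r)
    (hq : r / t = q) : ‖a‖ ≤ q := by
  rw [← hq, le_div_iff₀ ht]
  have h1 : ‖a‖ * t = ‖b‖ := by
    rw [← h, norm_mul, Complex.norm_real, Real.norm_eq_abs, abs_of_pos ht, mul_comm]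
  rw [h1]
  exact hb

theorem KEY_L (hVHB : VHB_stmt) (hV3B : V3B_stmt) (p k i N : ℕ) (w : Fin N → ℝ) (x : Fin N → ℂ)
    (H : ℕ → ℂ) (hp : 1 ≤ p) (hk : 1 ≤ k) (hi : i < p) (hC : Cnd p k i) (hA : Atomic N w x)
    (hH : Rec (-(2 * p)) (mom w x) H) :
    ∑ l, w l * ‖pol H i (x l) - ((p : ℂ) - i) / p * H i‖ ^ 2 ≤
      ((p : ℝ) - i) ^ 2 * (2 * p + 1) * (k * (2 * p + k)) / (p ^ 2 * ((p : ℝ) + k) ^ 2) *
        (((2 * p).choose i : ℝ) ^ 2 - ‖H i‖ ^ 2) := by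
  obtain ⟨hHc, hHV⟩ := hVHB p N w x H i hp hi.le hA hH
  have hpR : (1 : ℝ) ≤ p := by exact_mod_cast hp
  have hkR : (1 : ℝ) ≤ k := by exact_mod_cast hk
  have hD : 0 ≤ ((2 * p).choose i : ℝ) ^ 2 - ‖H i‖ ^ 2 := by
    have h1 := norm_nonneg (H i)
    nlinarith
  have hpk : (0 : ℝ) < (p : ℝ) + k := by linarith
  have key : i ^ 2 * (p + k) ^ 2 ≤ (p - i) ^ 2 * (2 * p + 1) * (k * (2 * p + k)) →
      ∑ l, w l * ‖pol H i (x l) - ((p : ℂ) - i) / p * H i‖ ^ 2 ≤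
      ((p : ℝ) - i) ^ 2 * (2 * p + 1) * (k * (2 * p + k)) / (p ^ 2 * ((p : ℝ) + k) ^ 2) *
        (((2 * p).choose i : ℝ) ^ 2 - ‖H i‖ ^ 2) := by
    intro h
    refine hHV.trans (mul_le_mul_of_nonneg_right ?_ hD)
    have h1 : (i : ℝ) ^ 2 * ((p : ℝ) + k) ^ 2 ≤
        ((p : ℝ) - i) ^ 2 * (2 * p + 1) * (k * (2 * p + k)) := by
      have h2 : ((i ^ 2 * (p + k) ^ 2 : ℕ) : ℝ) ≤
          (((p - i) ^ 2 * (2 * p + 1) * (k * (2 * p + k)) : ℕ) : ℝ) := by exact_mod_cast h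
      push_cast [Nat.cast_sub hi.le] at h2
      exact h2
    rw [div_pow, div_le_div_iff₀ (by positivity) (by positivity)]
    have h3 : (0 : ℝ) ≤ (p : ℝ) ^ 2 := by positivity
    nlinarith
  rcases hC with h | rfl
  · exact key h
  · have hi3 : i = 0 ∨ i = 1 ∨ i = 2 := by omega
    rcases hi3 with rfl | rfl | rfl
    · apply key
      simp
    · apply key
      norm_num
      nlinarith
    · have h6 : (-(2 * ((3 : ℕ) : ℂ))) = -6 := by norm_num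
      rw [h6] at hH
      have h1 := hV3B N w x H hA hH
      have h2 : (((3 : ℕ) : ℂ) - ((2 : ℕ) : ℂ)) / ((3 : ℕ) : ℂ) = 1 / 3 := by norm_num
      rw [h2]
      have h3 : (((2 * 3).choose 2 : ℕ) : ℝ) ^ 2 = 225 := by
        have : (2 * 3 : ℕ).choose 2 = 15 := by decide
        rw [this]
        norm_num
      rw [h3] at hD ⊢
      refine h1.trans (mul_le_mul_of_nonneg_right ?_ hD)
      have hk3 : (0 : ℝ) < (3 : ℝ) + k := by linarith
      push_cast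
      rw [div_le_div_iff₀ (by norm_num) (by positivity)]
      nlinarith

theorem KEY (hVHB : VHB_stmt) (hV3B : V3B_stmt) (hVGB : VGB_stmt) (hCOV : COV_stmt)
    (hACZ : ACZ_stmt) (hNUM : NUM_stmt) : KEY_stmt := by
  intro p k i N w x G H hp hk hi hC hA hG hH
  obtain ⟨hGc, hGV⟩ := hVGB p N w x G k hp hk hA hG
  obtain ⟨hHc, -⟩ := hVHB p N w x H i hp hi.le hA hH
  have hHL := KEY_L hVHB hV3B p k i N w x H hp hk hi hC hA hH
  obtain ⟨cov1, cov2⟩ := hCOV p k i N w x G H hp hk hi hA hG hH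
  obtain ⟨num1, num2⟩ := hNUM p k i hp hk hi
  have hpR : (1 : ℝ) ≤ p := by exact_mod_cast hp
  have hkR : (1 : ℝ) ≤ k := by exact_mod_cast hk
  have hiR : (i : ℝ) + 1 ≤ p := by exact_mod_cast hi
  have hi0 : (0 : ℝ) ≤ i := Nat.cast_nonneg i
  have hpi : (0 : ℝ) ≤ (p : ℝ) - i := by linarith
  have hpk : (0 : ℝ) < (p : ℝ) + k := by linarith
  have hκ : 0 ≤ (k : ℝ) * (2 * p + k) * (p - i) / ((p + k) * p) := by positivity
  have hK : 0 ≤ (k : ℝ) * (2 * p + k) / (p ^ 2 * (2 * p + 1)) := by positivity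
  have hL : 0 ≤ ((p : ℝ) - i) ^ 2 * (2 * p + 1) * (k * (2 * p + k)) /
      (p ^ 2 * ((p : ℝ) + k) ^ 2) := by positivity
  have hKL : (p : ℝ) ^ 2 * ((k : ℝ) * (2 * p + k) / (p ^ 2 * (2 * p + 1)) *
      (((p : ℝ) - i) ^ 2 * (2 * p + 1) * (k * (2 * p + k)) / (p ^ 2 * ((p : ℝ) + k) ^ 2))) ≤
      ((k : ℝ) * (2 * p + k) * (p - i) / ((p + k) * p)) ^ 2 := by
    apply le_of_eq
    have h1 : (p : ℝ) ≠ 0 := by linarith
    have h2 : (p : ℝ) + k ≠ 0 := hpk.ne'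
    have h3 : 2 * (p : ℝ) + 1 ≠ 0 := by linarith
    field_simp
  have main1 := hACZ N w (fun l => pol G k (x l) - ((p : ℂ) + k) / p * G k)
    (fun l => pol H i (x l) - ((p : ℂ) - i) / p * H i) (G k) (H i) p
    ((k : ℝ) * (2 * p + k) * (p - i) / ((p + k) * p)) (cc (2 * p) k) ((2 * p).choose i)
    ((k : ℝ) * (2 * p + k) / (p ^ 2 * (2 * p + 1)))
    (((p : ℝ) - i) ^ 2 * (2 * p + 1) * (k * (2 * p + k)) / (p ^ 2 * ((p : ℝ) + k) ^ 2))
    hA.1 (by linarith) hκ hK hL hGc hHc hGV hHL hKL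
  have main2 := hACZ N w (fun l => pol G k (x l) - ((p : ℂ) + k) / p * G k)
    (fun l => (starRingEnd ℂ) (pol H i (x l) - ((p : ℂ) - i) / p * H i)) (G k)
    ((starRingEnd ℂ) (H i)) p
    ((k : ℝ) * (2 * p + k) * (p - i) / ((p + k) * p)) (cc (2 * p) k) ((2 * p).choose i)
    ((k : ℝ) * (2 * p + k) / (p ^ 2 * (2 * p + 1)))
    (((p : ℝ) - i) ^ 2 * (2 * p + 1) * (k * (2 * p + k)) / (p ^ 2 * ((p : ℝ) + k) ^ 2))
    hA.1 (by linarith) hκ hK hL hGc (by rw [RCLike.norm_conj]; exact hHc) hGV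
    (by
      rw [RCLike.norm_conj]
      refine le_trans (le_of_eq ?_) hHL
      refine Finset.sum_congr rfl fun l _ => ?_
      rw [RCLike.norm_conj]) hKL
  constructor
  · refine KEY_norm (t := 2 * ((k : ℝ) + i)) (by linarith) ?_ main1 num1
    push_cast
    rw [cov1]
  · refine KEY_norm (t := 2 * (2 * (p : ℝ) + k - i)) (by linarith) ?_ main2 num2
    push_cast
    rw [cov2]

end Pool.Agent.GD
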