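import Pool.Agent.helper65.GD.SpecE

/-!
# gdm:STB (helper31)
-/

set_option autoImplicit false
set_option linter.unusedVariables false

namespace Pool.Agent.GD

open Finset Metric Filter Topology

lemma STB_cv (p : ℕ) (Q : ℕ → ℂ) (Φ : ℕ → ℕ → ℂ) (d : ℕ → ℂ) (n : ℕ) :
    cv Q (cmb p Φ d) n = ∑ m ∈ Icc 1 p, d m * cv Q (Φ m) n := by
  unfold cv cmb
  simp only [Finset.mul_sum]
  rw [Finset.sum_comm]
  refine Finset.sum_congr rfl fun m _ => Finset.sum_congr rfl fun r _ => ?_
  ring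

lemma STB_eqn (p : ℕ) (Q : ℕ → ℂ) (Φ : ℕ → ℕ → ℂ) (hP : Pws Q Φ) (c : ℕ → ℂ) (n : ℕ) :
    (n : ℂ) * cmb p Φ c n = cv Q (cmb p Φ (fun m => m * c m)) n := by
  rw [STB_cv]
  unfold cmb
  rw [Finset.mul_sum]
  refine Finset.sum_congr rfl fun m _ => ?_
  have h := hP.eqn m n
  calc (n : ℂ) * (c m * Φ m n) = c m * ((n : ℂ) * Φ m n) := by ring
    _ = c m * (m * cv Q (Φ m) n) := by rw [h]
    _ = m * c m * cv Q (Φ m) n := by ring

lemma STB_dec (p : ℕ) (Φ : ℕ → ℕ → ℂ)
    (huniq : ∀ c : ℕ → ℂ, (∀ j ∈ Icc 1 p, cmb p Φ c j = 0) → ∀ m ∈ Icc 1 p, c m = 0)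
    (cc : ℕ → ℕ → ℂ) (hcc : ∀ j, ∀ r ∈ Icc 1 p, cmb p Φ (cc j) r = if r = j then (1 : ℂ) else 0)
    (c : ℕ → ℂ) (n : ℕ) :
    cmb p Φ c n = ∑ j ∈ Icc 1 p, cmb p Φ c j * cmb p Φ (cc j) n := by
  have hlin : ∀ r, cmb p Φ (fun m => c m - ∑ j ∈ Icc 1 p, cmb p Φ c j * cc j m) r =
      cmb p Φ c r - ∑ j ∈ Icc 1 p, cmb p Φ c j * cmb p Φ (cc j) r := by
    intro r
    have h1 : ∑ j ∈ Icc 1 p, cmb p Φ c j * cmb p Φ (cc j) r =
        ∑ m ∈ Icc 1 p, (∑ j ∈ Icc 1 p, cmb p Φ c j * cc j m) * Φ m r := by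
      have h2 : ∀ j, cmb p Φ (cc j) r = ∑ m ∈ Icc 1 p, cc j m * Φ m r := fun j => rfl
      simp only [h2, Finset.mul_sum, Finset.sum_mul]
      rw [Finset.sum_comm]
      refine Finset.sum_congr rfl fun m _ => Finset.sum_congr rfl fun j _ => ?_
      ring
    rw [h1]
    have h3 : cmb p Φ c r = ∑ m ∈ Icc 1 p, c m * Φ m r := rfl
    rw [h3, ← Finset.sum_sub_distrib]
    have h4 : cmb p Φ (fun m => c m - ∑ j ∈ Icc 1 p, cmb p Φ c j * cc j m) r =
        ∑ m ∈ Icc 1 p, (c m - ∑ j ∈ Icc 1 p, cmb p Φ c j * cc j m) * Φ m r := rfl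
    rw [h4]
    refine Finset.sum_congr rfl fun m _ => ?_
    ring
  have h0 := huniq (fun m => c m - ∑ j ∈ Icc 1 p, cmb p Φ c j * cc j m) (by
    intro r hr
    rw [hlin, Finset.sum_eq_single r]
    · rw [hcc r r hr, if_pos rfl]
      ring
    · intro j hj hne
      rw [hcc j r hr, if_neg (Ne.symm hne), mul_zero]
    · intro h
      exact (h hr).elim)
  have h1 : cmb p Φ (fun m => c m - ∑ j ∈ Icc 1 p, cmb p Φ c j * cc j m) n = 0 := by
    have h4 : cmb p Φ (fun m => c m - ∑ j ∈ Icc 1 p, cmb p Φ c j * cc j m) n =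
        ∑ m ∈ Icc 1 p, (c m - ∑ j ∈ Icc 1 p, cmb p Φ c j * cc j m) * Φ m n := rfl
    rw [h4]
    refine Finset.sum_eq_zero fun m hm => ?_
    rw [h0 m hm, zero_mul]
  rw [hlin] at h1
  exact sub_eq_zero.1 h1

theorem STB (hLIN : LIN_stmt) (hFJB : FJB_stmt) (hSTE : STE_stmt) (hNUE : NUE_stmt) :
    STB_stmt := by
  intro p Q Φ hQ0 hR hP
  obtain ⟨hex, huniq⟩ := hLIN p Φ hP.low hP.diag
  choose cc hcc using fun j : ℕ => hex (fun r => if r = j then (1 : ℂ) else 0)
  have hdec := STB_dec p Φ huniq cc hcc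
  set b : ℕ → ℕ → ℂ := fun j n => cmb p Φ (cc j) n with hb
  set F : ℕ → ℕ → ℂ := fun j n => cmb p Φ (fun m => m * cc j m) n with hF
  have heq : ∀ j m : ℕ, (m : ℂ) * b j m = cv Q (F j) m := fun j m => STB_eqn p Q Φ hP (cc j) m
  have hbr : ∀ j r, 1 ≤ r → r ≤ p → b j r = if r = j then (1 : ℂ) else 0 :=
    fun j r h1 h2 => hcc j r (Finset.mem_Icc.2 ⟨h1, h2⟩)
  have hFJ := fun j (h1 : 1 ≤ j) (h2 : j ≤ p) => hFJB p j Q (b j) (F j) h1 h2 hQ0 hR (heq j) (hbr j)
  have hFdec : ∀ j, 1 ≤ j → j ≤ p → ∀ m, F j m = j * b j m + ∑ q ∈ Ioc j p, F j q * b q m := by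
    intro j h1 h2 m
    obtain ⟨hlt, hjj, _⟩ := hFJ j h1 h2
    have h3 : F j m = ∑ q ∈ Icc 1 p, F j q * b q m := hdec (fun m => m * cc j m) m
    rw [h3, ← Finset.sum_subset (Finset.Icc_subset_Icc_left h1 : Icc j p ⊆ Icc 1 p) (by
      intro q hq hq'
      rw [Finset.mem_Icc] at hq hq'
      rw [hlt q (by omega), zero_mul]), ← Finset.Ioc_insert_left h2, Finset.sum_insert (by simp),
      hjj]
  have hclaim : ∀ n, p < n → ∀ j, 1 ≤ j → j ≤ p → ‖b j n‖ ≤ AA p n j := by
    intro n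
    induction n using Nat.strong_induction_on with
    | _ n ih =>
      intro hn
      have hdown : ∀ k j, p - j = k → 1 ≤ j → j ≤ p → ‖b j n‖ ≤ AA p n j := by
        intro k
        induction k using Nat.strong_induction_on with
        | _ k ihk =>
          intro j hk h1 h2
          obtain ⟨hlt, hjj, hle⟩ := hFJ j h1 h2
          have hFb : ∀ m, p < m → m < n → ‖F j m‖ ≤ j * BB p m j := by
            intro m hm hmn
            rw [hFdec j h1 h2 m]
            unfold BB
            refine (norm_add_le _ _).trans ?_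
            rw [mul_add]
            refine add_le_add ?_ ?_
            · rw [norm_mul, Complex.norm_natCast]
              exact mul_le_mul_of_nonneg_left (ih m hmn hm j h1 h2) (Nat.cast_nonneg _)
            · refine (norm_sum_le _ _).trans ?_
              rw [Finset.mul_sum, Finset.mul_sum]
              refine Finset.sum_le_sum fun q hq => ?_
              rw [Finset.mem_Ioc] at hq
              rw [norm_mul]
              have h5 := hle q hq.1 hq.2
              have h6 := ih m hmn hm q (by omega) hq.2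
              calc ‖F j q‖ * ‖b q m‖ ≤ (2 * j) * AA p m q :=
                    mul_le_mul h5 h6 (norm_nonneg _) (by positivity)
                _ = j * (2 * AA p m q) := by ring
          have hst := hSTE p n j Q (b j) (F j) h1 h2 hn hQ0 hR (heq j) (hbr j)
            (fun m hm hmn => ih m hmn hm j h1 h2) hFb
          have hnj : (0 : ℝ) < (n : ℝ) - j := by
            have : (j : ℝ) < n := by exact_mod_cast (lt_of_le_of_lt h2 hn)
            linarith
          have hid : ((n : ℂ) - j) * b j n = ((n : ℂ) * b j n - F j n) + ∑ q ∈ Ioc j p, F j q * b q n := by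
            rw [hFdec j h1 h2 n]
            ring
          have hsum : ‖∑ q ∈ Ioc j p, F j q * b q n‖ ≤ j * (2 * ∑ q ∈ Ioc j p, AA p n q) := by
            refine (norm_sum_le _ _).trans ?_
            rw [Finset.mul_sum, Finset.mul_sum]
            refine Finset.sum_le_sum fun q hq => ?_
            rw [Finset.mem_Ioc] at hq
            rw [norm_mul]
            have h5 := hle q hq.1 hq.2
            have h6 := ihk (p - q) (by omega) q rfl (by omega) hq.2
            calc ‖F j q‖ * ‖b q n‖ ≤ (2 * j) * AA p n q :=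
                  mul_le_mul h5 h6 (norm_nonneg _) (by positivity)
              _ = j * (2 * AA p n q) := by ring
          have hnorm : ‖((n : ℂ) - j)‖ = (n : ℝ) - j := by
            have h7 : ((n : ℂ) - j) = (((n : ℝ) - j : ℝ) : ℂ) := by push_cast; ring
            rw [h7, Complex.norm_real, Real.norm_of_nonneg hnj.le]
          have hfin : ((n : ℝ) - j) * ‖b j n‖ ≤ ((n : ℝ) - j) * AA p n j := by
            calc ((n : ℝ) - j) * ‖b j n‖ = ‖((n : ℂ) - j) * b j n‖ := by rw [norm_mul, hnorm]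
              _ ≤ ‖(n : ℂ) * b j n - F j n‖ + ‖∑ q ∈ Ioc j p, F j q * b q n‖ := by
                rw [hid]
                exact norm_add_le _ _
              _ ≤ (n * AA p n j - j * BB p n j) + j * (2 * ∑ q ∈ Ioc j p, AA p n q) :=
                add_le_add hst hsum
              _ = ((n : ℝ) - j) * AA p n j := by
                unfold BB
                ring
          exact le_of_mul_le_mul_left hfin hnj
      intro j h1 h2
      exact hdown (p - j) j rfl h1 h2
  intro c n hn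
  rw [hdec c n]
  refine (norm_sum_le _ _).trans ?_
  refine Finset.sum_le_sum fun j hj => ?_
  rw [Finset.mem_Icc] at hj
  rw [norm_mul, mul_comm]
  exact mul_le_mul_of_nonneg_right (hclaim n hn j hj.1 hj.2) (norm_nonneg _)

end Pool.Agent.GD
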